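import Mathlib

/-! Definitions for the statement: cycles of a graph as edge sets, `k`-cyclic graphs. -/

namespace Pool.Agent.MP_e633d5_co

/-- The edge sets of the cycles of `G`. -/
def cycleSets {V : Type} (G : SimpleGraph V) : Set (Set (Sym2 V)) :=
  {s | ∃ (v : V) (c : G.Walk v v), c.IsCycle ∧ s = {e | e ∈ c.edges}}

/-- `G` is connected and has exactly `k` cycles. -/
structure KCyclic {V : Type} (G : SimpleGraph V) (k : ℕ) : Prop where
  connected : G.Connected
  card_eq : (cycleSets G).ncard = k

/-- The degree of a vertex. -/
noncomputable def dg {V : Type} (G : SimpleGraph V) (v : V) : ℕ := (G.neighborSet v).ncard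

/-- A reduced `k`-cyclic graph, labelled by non-increasing degrees: all degrees are at least two and
the two neighbours of a vertex of degree two are adjacent. -/
structure Core {q : ℕ} (H : SimpleGraph (Fin q)) (k : ℕ) : Prop where
  kcyclic : KCyclic H k
  two_le : ∀ v, 2 ≤ dg H v
  reduced : ∀ v a b, a ≠ b → H.neighborSet v = {a, b} → H.Adj a b
  sorted : Antitone (dg H)

end Pool.Agent.MP_e633d5_co
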